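import Mathlib

set_option autoImplicit false

/-! # MP_3af439_nt: six composite integers outside the list with `φ₃(n) ∣ n - 1` -/

namespace Pool.Agent.Results.MP_3af439_nt.SixCounterexamples

open Finset

/-- `phi e n` is the number of integers `i` with `1 ≤ i ≤ ⌊n / e⌋` and `gcd(i, n) = 1`. -/
def phi (e n : ℕ) : ℕ := ((Finset.Icc 1 (n / e)).filter (fun i => Nat.gcd i n = 1)).card

/-- The list of the exceptions of the problem. -/
def E : Finset ℕ := {4, 6, 8, 9, 12, 16, 21, 65, 425, 1729, 3201, 3531, 22865}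

/-- The number of `1 ≤ i ≤ N` coprime to `m`. -/
def c (N m : ℕ) : ℕ := ((Finset.Icc 1 N).filter (fun i => Nat.gcd i m = 1)).card

theorem c_one (N : ℕ) : c N 1 = N := by
  unfold c
  rw [Finset.filter_true_of_mem (fun i _ => Nat.gcd_one_right i)]
  simp

/-- Inclusion-exclusion step. -/
theorem c_mul (N m p : ℕ) (hp : p.Prime) (hpm : ¬ p ∣ m) :
    c N (m * p) = c N m - c (N / p) m := by
  have hcop : Nat.Coprime p m := (Nat.Prime.coprime_iff_not_dvd hp).2 hpm
  have h1 : ((Finset.Icc 1 N).filter (fun i => Nat.gcd i m = 1)).card =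
      ((Finset.Icc 1 N).filter (fun i => Nat.gcd i (m * p) = 1)).card +
      ((Finset.Icc 1 N).filter (fun i => Nat.gcd i m = 1 ∧ p ∣ i)).card := by
    rw [← Finset.card_filter_add_card_filter_not
      (s := (Finset.Icc 1 N).filter (fun i => Nat.gcd i m = 1)) (fun i => ¬ p ∣ i)]
    congr 1
    · rw [Finset.filter_filter]
      congr 1
      apply Finset.filter_congr
      intro i _
      constructor
      · rintro ⟨h1, h2⟩
        exact Nat.Coprime.mul_right h1
          (Nat.Coprime.symm ((Nat.Prime.coprime_iff_not_dvd hp).2 h2))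
      · intro h
        have h3 : Nat.Coprime i (m * p) := h
        refine ⟨Nat.Coprime.coprime_mul_right_right h3, ?_⟩
        exact (Nat.Prime.coprime_iff_not_dvd hp).1 (Nat.Coprime.coprime_mul_left_right h3).symm
    · rw [Finset.filter_filter]
      congr 1
      apply Finset.filter_congr
      intro i _
      simp
  have h2 : ((Finset.Icc 1 N).filter (fun i => Nat.gcd i m = 1 ∧ p ∣ i)).card =
      ((Finset.Icc 1 (N / p)).filter (fun i => Nat.gcd i m = 1)).card := by
    symm
    apply Finset.card_bij (fun j _ => p * j)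
    · intro j hj
      rw [mem_filter, mem_Icc] at hj ⊢
      obtain ⟨⟨h1, h2⟩, h3⟩ := hj
      refine ⟨⟨Nat.mul_pos hp.pos h1, ?_⟩, ?_, Dvd.intro _ rfl⟩
      · calc p * j ≤ p * (N / p) := Nat.mul_le_mul_left p h2
          _ ≤ N := Nat.mul_div_le N p
      · exact Nat.Coprime.mul_left hcop h3
    · intro a _ b _ hab
      exact Nat.eq_of_mul_eq_mul_left hp.pos hab
    · intro i hi
      rw [mem_filter, mem_Icc] at hi
      obtain ⟨⟨h1, h2⟩, h3, j, rfl⟩ := hi
      refine ⟨j, ?_, rfl⟩
      rw [mem_filter, mem_Icc]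
      refine ⟨⟨Nat.pos_of_ne_zero (by rintro rfl; simp at h1), ?_⟩, ?_⟩
      · rw [Nat.le_div_iff_mul_le hp.pos, mul_comm]
        exact h2
      · exact Nat.Coprime.coprime_mul_left h3
  unfold c
  omega

/-- Legendre's recursion along a list of primes. -/
def cc (N : ℕ) : List ℕ → ℕ
  | [] => N
  | p :: L => cc N L - cc (N / p) L

theorem c_eq_cc (L : List ℕ) : ∀ N : ℕ, (∀ p ∈ L, p.Prime) → L.Nodup → c N L.prod = cc N L := by
  induction L with
  | nil => intro N _ _; simpa [cc] using c_one N
  | cons p L ih =>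
    intro N hp hnd
    rw [List.nodup_cons] at hnd
    have hpp : p.Prime := hp p (by simp)
    have hL : ∀ q ∈ L, q.Prime := fun q hq => hp q (by simp [hq])
    have hnot : ¬ p ∣ L.prod := by
      intro h
      obtain ⟨q, hq, hpq⟩ := (Prime.dvd_prod_iff (Nat.prime_iff.1 hpp)).1 h
      have := (Nat.prime_dvd_prime_iff_eq hpp (hL q hq)).1 hpq
      exact hnd.1 (this ▸ hq)
    rw [List.prod_cons, mul_comm, c_mul N L.prod p hpp hnot, ih N hL hnd.2, ih (N / p) hL hnd.2]
    rfl

theorem phi_eq (L : List ℕ) (hp : ∀ p ∈ L, p.Prime) (hnd : L.Nodup) :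
    phi 3 L.prod = cc (L.prod / 3) L := c_eq_cc L _ hp hnd

theorem good (n : ℕ) (L : List ℕ) (hn : n = L.prod) (hp : ∀ p ∈ L, p.Prime) (hnd : L.Nodup)
    (k : ℕ) (hk : cc (L.prod / 3) L * k = n - 1) : phi 3 n * k = n - 1 := by
  rw [← hk, hn, phi_eq L hp hnd]

theorem two_le (n a b : ℕ) (h : n = a * b) (ha : 1 < a) (hb : 1 < b) : ¬ n.Prime := by
  rw [h]
  exact Nat.not_prime_mul (by omega) (by omega)

/-- Trial division by `lo, …, lo + 2 ^ k - 1`. -/
def chk (p : ℕ) : ℕ → ℕ → Bool
  | 0, lo => decide (p % lo ≠ 0)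
  | k + 1, lo => chk p k lo && chk p k (lo + 2 ^ k)

theorem chk_spec (p : ℕ) : ∀ (k lo : ℕ), chk p k lo = true →
    ∀ m, lo ≤ m → m < lo + 2 ^ k → p % m ≠ 0 := by
  intro k
  induction k with
  | zero =>
    intro lo h m h1 h2
    have : m = lo := by omega
    subst this
    simpa [chk] using h
  | succ k ih =>
    intro lo h m h1 h2
    rw [chk, Bool.and_eq_true] at h
    rw [pow_succ] at h2
    by_cases hm : m < lo + 2 ^ k
    · exact ih lo h.1 m h1 hm
    · exact ih (lo + 2 ^ k) h.2 m (by omega) (by omega)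

theorem prime_big : Nat.Prime 4294967357 := by
  rw [Nat.prime_def_le_sqrt]
  refine ⟨by norm_num, fun m h2 hm hd => ?_⟩
  have h1 : m < 2 + 2 ^ 16 := by
    have h3 : Nat.sqrt 4294967357 < 2 + 2 ^ 16 := by
      rw [Nat.sqrt_lt']
      norm_num
    omega
  exact chk_spec 4294967357 16 2 (by decide +kernel) m h2 h1 (Nat.mod_eq_zero_of_dvd hd)

/-- Each of the six integers `n = 4125441`, `5335341`, `1414754121`, `4470253053321`,
`380655711289345`, `6148914777135863105` is composite, is not in the list `E`, and `φ₃(n)` divides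
`n - 1`; the quotient is `5` for the first four and `4` for the last two. -/
theorem result :
    (∀ n ∈ ({4125441, 5335341, 1414754121, 4470253053321} : Finset ℕ),
      4 ≤ n ∧ ¬ n.Prime ∧ n ∉ E ∧ phi 3 n * 5 = n - 1 ∧ phi 3 n ∣ n - 1) ∧
    (∀ n ∈ ({380655711289345, 6148914777135863105} : Finset ℕ),
      4 ≤ n ∧ ¬ n.Prime ∧ n ∉ E ∧ phi 3 n * 4 = n - 1 ∧ phi 3 n ∣ n - 1) := by
  have hdvd : ∀ n k : ℕ, phi 3 n * k = n - 1 → phi 3 n * k = n - 1 ∧ phi 3 n ∣ n - 1 :=
    fun n k h => ⟨h, ⟨k, h.symm⟩⟩
  constructor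
  · intro n hn
    simp only [Finset.mem_insert, Finset.mem_singleton] at hn
    rcases hn with rfl | rfl | rfl | rfl
    · exact ⟨by norm_num, two_le _ 3 1375147 (by norm_num) (by norm_num) (by norm_num),
        by decide, hdvd _ _ (good _ [3, 17, 23, 3517] (by decide +kernel)
          (by simp only [List.mem_cons, List.not_mem_nil, or_false, forall_eq_or_imp, forall_eq]
              norm_num) (by decide) 5 (by decide +kernel))⟩
    · exact ⟨by norm_num, two_le _ 3 1778447 (by norm_num) (by norm_num) (by norm_num),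
        by decide, hdvd _ _ (good _ [3, 11, 107, 1511] (by decide +kernel)
          (by simp only [List.mem_cons, List.not_mem_nil, or_false, forall_eq_or_imp, forall_eq]
              norm_num) (by decide) 5 (by decide +kernel))⟩
    · exact ⟨by norm_num, two_le _ 3 471584707 (by norm_num) (by norm_num) (by norm_num),
        by decide, hdvd _ _ (good _ [3, 11, 197, 269, 809] (by decide +kernel)
          (by simp only [List.mem_cons, List.not_mem_nil, or_false, forall_eq_or_imp, forall_eq]
              norm_num) (by decide) 5 (by decide +kernel))⟩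
    · exact ⟨by norm_num, two_le _ 3 1490084351107 (by norm_num) (by norm_num) (by norm_num),
        by decide, hdvd _ _ (good _ [3, 11, 101, 10883, 123239] (by decide +kernel)
          (by simp only [List.mem_cons, List.not_mem_nil, or_false, forall_eq_or_imp, forall_eq]
              norm_num) (by decide) 5 (by decide +kernel))⟩
  · intro n hn
    simp only [Finset.mem_insert, Finset.mem_singleton] at hn
    rcases hn with rfl | rfl
    · exact ⟨by norm_num, two_le _ 5 76131142257869 (by norm_num) (by norm_num) (by norm_num),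
        by decide, hdvd _ _ (good _ [5, 17, 257, 117163, 148727] (by decide +kernel)
          (by simp only [List.mem_cons, List.not_mem_nil, or_false, forall_eq_or_imp, forall_eq]
              norm_num) (by decide) 4 (by decide +kernel))⟩
    · exact ⟨by norm_num, two_le _ 5 1229782955427172621 (by norm_num) (by norm_num) (by norm_num),
        by decide, hdvd _ _ (good _ [5, 17, 257, 65537, 4294967357] (by decide +kernel)
          (by simp only [List.mem_cons, List.not_mem_nil, or_false, forall_eq_or_imp, forall_eq]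
              exact ⟨by norm_num, by norm_num, by norm_num, by norm_num, prime_big⟩) (by decide) 4 (by decide +kernel))⟩

end Pool.Agent.Results.MP_3af439_nt.SixCounterexamples
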